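import Pool.Agent.W22.ME.TD
import Pool.Agent.H459R3.NS.Ser

/-!
ME-DEC: the harmonic part of the decomposition (helper505).
-/

set_option linter.unusedVariables false

open MeasureTheory Set Metric Filter Topology
open scoped ContDiff ENNReal

namespace Pool.Agent.W505.ME.DEC

open H459R3.NS W221.NS Pool.Agent.W22.ME.TD

/-! ### bounds for derivatives of potentials -/

theorem term_bd (h : S_HARM) {g : V → ℝ} {C : ℝ} (hg : IsGreen g C) : ∃ K : ℝ, 0 < K ∧
    ∀ a : V → ℝ, T4 a → (∀ z ∈ ball (0 : V) 2, a z = 0) → ∀ Y : ℝ, 0 ≤ Y →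
      ∫ y, a y ^ 2 ≤ Y → ∀ i, ∀ z ∈ ball (0 : V) 1,
        |pd i (KK g a) z| ≤ K * √Y ∧ ∀ k, |pd k (pd i (KK g a)) z| ≤ K * √Y := by
  obtain ⟨Cs, hCs, hs⟩ := sup_bound h
  obtain ⟨Ch, hCh, hh⟩ := h
  have hC0 : 0 ≤ |C| := abs_nonneg C
  refine ⟨√((Cs + Ch) * |C|) + 1, by positivity, fun a ha h0 Y hY hle i z hz => ?_⟩
  have sa := hg.smooth a ha
  have hF : ContDiff ℝ ∞ (pd i (KK g a)) := pd_smooth sa i
  have hl := harm hg ha h0 i
  have h2 : ∫ x in ball (0 : V) 2, pd i (KK g a) x ^ 2 ≤ |C| * Y := by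
    refine (sq_mono hF.continuous (ball_subset_ball (by norm_num : (2 : ℝ) ≤ 8))).trans ?_
    refine (hg.n1 a ha i).trans ?_
    have h1 : 0 ≤ ∫ y, a y ^ 2 := integral_nonneg fun y => sq_nonneg _
    calc C * ∫ y, a y ^ 2 ≤ |C| * ∫ y, a y ^ 2 :=
          mul_le_mul_of_nonneg_right (le_abs_self C) h1
      _ ≤ |C| * Y := mul_le_mul_of_nonneg_left hle hC0
  have h3 : 0 ≤ ∫ x in ball (0 : V) 2, pd i (KK g a) x ^ 2 := integral_nonneg fun x => sq_nonneg _
  have h4 : 0 ≤ |C| * Y := by positivity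
  have key : ∀ t : ℝ, t ^ 2 ≤ (Cs + Ch) * (|C| * Y) → |t| ≤ (√((Cs + Ch) * |C|) + 1) * √Y := by
    intro t ht
    have h5 : |t| ≤ √((Cs + Ch) * |C|) * √Y := by
      rw [← Real.sqrt_mul (by positivity)]
      apply Real.abs_le_sqrt
      linarith [ht]
    have h6 : 0 ≤ √Y := Real.sqrt_nonneg _
    nlinarith
  constructor
  · apply key
    have h5 := hs _ hF hl z hz
    calc pd i (KK g a) z ^ 2 ≤ Cs * ∫ x in ball (0 : V) 2, pd i (KK g a) x ^ 2 := h5
      _ ≤ Cs * (|C| * Y) := mul_le_mul_of_nonneg_left h2 hCs.le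
      _ ≤ (Cs + Ch) * (|C| * Y) := mul_le_mul_of_nonneg_right (by linarith) h4
  · intro k
    apply key
    have h5 := (hh _ hF 0 2 (by norm_num) hl z (by simpa using hz) k).1
    calc pd k (pd i (KK g a)) z ^ 2
        ≤ Ch * (2 ^ 5)⁻¹ * ∫ x in ball (0 : V) 2, pd i (KK g a) x ^ 2 := h5
      _ ≤ Ch * (2 ^ 5)⁻¹ * (|C| * Y) := mul_le_mul_of_nonneg_left h2 (by positivity)
      _ ≤ Ch * 1 * (|C| * Y) := by
          refine mul_le_mul_of_nonneg_right (mul_le_mul_of_nonneg_left ?_ hCh.le) h4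
          norm_num
      _ ≤ (Cs + Ch) * (|C| * Y) := mul_le_mul_of_nonneg_right (by linarith) h4

/-! ### algebra -/

variable {f : V → V} {g : V → ℝ} {C : ℝ}

theorem TT_eq (g : V → ℝ) (f : V → V) (x : V) (i : Fin 3) :
    TT g f x i = ∑ j, pd j (KK g (al f i j)) x := rfl

theorem TT_smooth (hg : IsGreen g C) (hf : ContDiff ℝ ∞ f) : ContDiff ℝ ∞ (TT g f) := by
  refine contDiff_pi.2 fun i => ?_
  exact ContDiff.sum fun j _ => pd_smooth (hg.smooth _ (T4_al hf i j)) j

theorem al_anti (f : V → V) (i j : Fin 3) : al f j i = fun y => -al f i j y := by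
  funext y
  unfold al
  ring

theorem KK_neg (g : V → ℝ) (a : V → ℝ) : KK g (fun y => -a y) = fun x => -KK g a x := by
  funext x
  unfold KK
  rw [← integral_neg]
  congr 1
  funext y
  ring

theorem pd_neg' (a : V → ℝ) (i : Fin 3) : pd i (fun x => -a x) = fun x => -pd i a x := by
  funext x
  unfold pd
  rw [fderiv_fun_neg]
  rfl

theorem dv_TT (hg : IsGreen g C) (hf : ContDiff ℝ ∞ f) (x : V) : dv (TT g f) x = 0 := by
  have s : ∀ i j, ContDiff ℝ ∞ (KK g (al f i j)) := fun i j => hg.smooth _ (T4_al hf i j)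
  have h1 : dv (TT g f) x = ∑ i, ∑ j, pd i (pd j (KK g (al f i j))) x := by
    unfold dv
    refine Finset.sum_congr rfl fun i _ => ?_
    exact congrFun (pd_sum (fun j => pd_smooth (s i j) j) i) x
  have h2 : ∀ i j, pd j (pd i (KK g (al f j i))) x = -pd i (pd j (KK g (al f i j))) x := by
    intro i j
    rw [al_anti f i j, KK_neg, pd_neg', pd_neg', pd_comm (s i j)]
  have h3 : ∑ i, ∑ j, pd i (pd j (KK g (al f i j))) x
      = -∑ i, ∑ j, pd i (pd j (KK g (al f i j))) x := by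
    conv_lhs => rw [Finset.sum_comm]
    rw [← Finset.sum_neg_distrib]
    refine Finset.sum_congr rfl fun i _ => ?_
    rw [← Finset.sum_neg_distrib]
    exact Finset.sum_congr rfl fun j _ => h2 i j
  rw [h1]
  linarith

theorem lap_sum {F : Fin 3 → V → ℝ} (hF : ∀ j, ContDiff ℝ ∞ (F j)) (z : V) :
    lap (fun x => ∑ j, F j x) z = ∑ j, lap (F j) z := by
  unfold lap
  rw [Finset.sum_comm]
  refine Finset.sum_congr rfl fun k _ => ?_
  rw [pd_sum hF k, pd_sum (fun j => pd_smooth (hF j) k) k]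

theorem lap_TT (hg : IsGreen g C) (hf : ContDiff ℝ ∞ f) (hd : ∀ x ∈ ball (0 : V) 8, dv f x = 0)
    {z : V} (hz : z ∈ ball (0 : V) 2) (i : Fin 3) :
    lap (fun y => f y i) z = lap (fun y => TT g f y i) z := by
  have s : ∀ i j, ContDiff ℝ ∞ (KK g (al f i j)) := fun i j => hg.smooth _ (T4_al hf i j)
  have h1 : lap (fun y => TT g f y i) z = ∑ j, lap (pd j (KK g (al f i j))) z :=
    lap_sum (fun j => pd_smooth (s i j) j) z
  have h2 : ∀ j, lap (pd j (KK g (al f i j))) z =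
      pd j (pd j (fun w => f w i)) z - pd i (pd j (fun w => f w j)) z := by
    intro j
    rw [lap_pd (s i j)]
    have e : lap (KK g (al f i j)) =ᶠ[𝓝 z] fun x => (∫ y, al f i j y) / 16 ^ 3 -
        (pd i (fun w => f w j) x - pd j (fun w => f w i) x) := by
      filter_upwards [isOpen_ball.mem_nhds hz] with x hx
      have h2 := hg.eqn _ (T4_al hf i j) x (ball_subset_ball (by norm_num) hx)
      have h3 : al f i j x = pd i (fun w => f w j) x - pd j (fun w => f w i) x := by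
        show chi x * _ = _
        rw [chi.one_of_mem_closedBall (ball_subset_closedBall hx), one_mul]
      rw [h3] at h2
      linarith
    rw [pd_congr e, pd_sub contDiff_const (curl_smooth hf i j)]
    beta_reduce
    rw [pd_const, pd_sub (pd_smooth (comp_smooth hf j) i) (pd_smooth (comp_smooth hf i) j),
      pd_comm (comp_smooth hf j) i j]
    ring
  have h3 : ∑ j, pd i (pd j (fun w => f w j)) z = 0 := by
    have e1 := congrFun (pd_sum (fun j => pd_smooth (comp_smooth hf j) j) i) z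
    beta_reduce at e1
    rw [← e1]
    have e2 : (fun x => ∑ j, pd j (fun w => f w j) x) =ᶠ[𝓝 z] fun _ => 0 := by
      filter_upwards [isOpen_ball.mem_nhds hz] with x hx
      exact hd x (ball_subset_ball (by norm_num) hx)
    rw [pd_congr e2, pd_const]
  rw [h1, Finset.sum_congr rfl fun j _ => h2 j, Finset.sum_sub_distrib, h3, sub_zero]
  rfl

/-- the divergence of `χ f` -/
theorem div_uu (hf : ContDiff ℝ ∞ f) (hd : ∀ x ∈ ball (0 : V) 8, dv f x = 0) :
    (fun y => ∑ j, pd j (uu f j) y) = fun y => ∑ j, ww f j j y := by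
  funext y
  have h1 : ∀ j, pd j (uu f j) y = chi y * pd j (fun w => f w j) y + ww f j j y := by
    intro j
    have := pd_mul T4_chi.1 (comp_smooth hf j) j y
    unfold uu ww
    rw [this]
    ring
  rw [Finset.sum_congr rfl fun j _ => h1 j, Finset.sum_add_distrib, ← Finset.mul_sum]
  have h2 : chi y * ∑ j, pd j (fun w => f w j) y = 0 := by
    by_cases hy : y ∈ ball (0 : V) 4
    · have := hd y (ball_subset_ball (by norm_num) hy)
      unfold dv at this
      rw [this, mul_zero]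
    · rw [T4_chi.2 y hy, zero_mul]
  rw [h2, zero_add]

/-- the formula for the harmonic part -/
theorem D_eq (hg : IsGreen g C) (hf : ContDiff ℝ ∞ f) (hd : ∀ x ∈ ball (0 : V) 8, dv f x = 0)
    {z : V} (hz : z ∈ ball (0 : V) 2) (i : Fin 3) :
    f z i - TT g f z i = (∫ y, uu f i y) / 16 ^ 3 - (∑ j, pd i (KK g (ww f j j)) z)
      + ∑ j, pd j (KK g (vp f i j)) z := by
  have s1 : ∀ i, ContDiff ℝ ∞ (KK g (uu f i)) := fun i => hg.smooth _ (T4_uu hf i)
  have s2 : ∀ i j, ContDiff ℝ ∞ (KK g (vp f i j)) := fun i j => hg.smooth _ (T4_vp hf i j)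
  have s5 : ∀ i j, ContDiff ℝ ∞ (KK g (ww f i j)) := fun i j => hg.smooth _ (T4_ww hf i j)
  have hterm : ∀ j, pd j (KK g (al f i j)) z = pd j (pd i (KK g (uu f j))) z -
      pd j (pd j (KK g (uu f i))) z - pd j (KK g (vp f i j)) z := by
    intro j
    rw [KK_al hg hf, pd_sub ((pd_smooth (s1 j) i).sub (pd_smooth (s1 i) j)) (s2 i j),
      pd_sub (pd_smooth (s1 j) i) (pd_smooth (s1 i) j)]
  have hA : ∑ j, pd j (pd i (KK g (uu f j))) z = ∑ j, pd i (KK g (ww f j j)) z := by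
    have e1 : (fun x => ∑ j, pd j (KK g (uu f j)) x) = fun x => ∑ j, KK g (ww f j j) x := by
      have e2 : KK g (fun y => ∑ j, pd j (uu f j) y) = fun x => ∑ j, KK g (pd j (uu f j)) x :=
        KK_sum hg fun j => T4_pd (T4_uu hf j) j
      have e3 : KK g (fun y => ∑ j, ww f j j y) = fun x => ∑ j, KK g (ww f j j) x :=
        KK_sum hg fun j => T4_ww hf j j
      rw [← e3, ← div_uu hf hd, e2]
      funext x
      exact Finset.sum_congr rfl fun j _ => by rw [hg.pdK _ (T4_uu hf j)]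
    have e4 := congrFun (pd_sum (fun j => pd_smooth (s1 j) j) i) z
    have e5 := congrFun (pd_sum (fun j => s5 j j) i) z
    beta_reduce at e4 e5
    rw [e1] at e4
    rw [← e5, e4]
    exact Finset.sum_congr rfl fun j _ => by rw [pd_comm (s1 j)]
  have hB : ∑ j, pd j (pd j (KK g (uu f i))) z = (∫ y, uu f i y) / 16 ^ 3 - f z i := by
    have h2 := hg.eqn _ (T4_uu hf i) z (ball_subset_ball (by norm_num) hz)
    have h3 : uu f i z = f z i := by
      show chi z * f z i = f z i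
      rw [chi.one_of_mem_closedBall (ball_subset_closedBall hz), one_mul]
    rw [h3] at h2
    have h4 : lap (KK g (uu f i)) z = ∑ j, pd j (pd j (KK g (uu f i))) z := rfl
    rw [← h4]
    linarith
  rw [TT_eq, Finset.sum_congr rfl fun j _ => hterm j, Finset.sum_sub_distrib,
    Finset.sum_sub_distrib, hA, hB]
  ring

/-- the mean value -/
theorem mean_bd (hf : ContDiff ℝ ∞ f) (i : Fin 3) {M : ℝ} (hM : ∀ z, |chi z| ≤ M) :
    |(∫ y, uu f i y) / 16 ^ 3| ≤ M * √(A2 0 4 f) := by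
  have hX0 := A2_nonneg 4 f
  have hM0 : 0 ≤ M := (abs_nonneg _).trans (hM 0)
  have h1 : ∫ y, uu f i y = ∫ y in ball (0 : V) 4, 1 * uu f i y := by
    simp_rw [one_mul]
    rw [setIntegral_eq_integral_of_forall_compl_eq_zero]
    intro y hy
    exact (T4_uu hf i).2 y hy
  have hc : Continuous (uu f i) := (T4_uu hf i).1.continuous
  have h2 := integral_mul_sq_le (μ := volume.restrict (ball (0 : V) 4)) (a := fun _ => (1 : ℝ))
    (b := uu f i) (intOn (by fun_prop) _ _) (intOn (hc.pow 2) _ _) (intOn (by fun_prop) _ _)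
  have h3 : ∫ _x in ball (0 : V) 4, ((1 : ℝ)) ^ 2 = 512 := by
    rw [setIntegral_const, smul_eq_mul, Measure.real, Real.volume_pi_ball 0 (by norm_num),
      ENNReal.toReal_ofReal (by positivity)]
    norm_num
  have h4 : ∫ y in ball (0 : V) 4, uu f i y ^ 2 ≤ M ^ 2 * A2 0 4 f := by
    refine le_trans ?_ (coef T4_chi hM hf i)
    rw [setIntegral_eq_integral_of_forall_compl_eq_zero]
    · rfl
    · intro y hy
      rw [(T4_uu hf i).2 y hy]
      norm_num
  rw [← h1, h3] at h2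
  have h5 : (∫ y, uu f i y) ^ 2 ≤ 512 * (M ^ 2 * A2 0 4 f) :=
    h2.trans (mul_le_mul_of_nonneg_left h4 (by norm_num))
  have h6 : |(∫ y, uu f i y) / 16 ^ 3| ≤ √(M ^ 2 * A2 0 4 f) := by
    apply Real.abs_le_sqrt
    rw [div_pow]
    have h7 : 0 ≤ M ^ 2 * A2 0 4 f := by positivity
    rw [div_le_iff₀ (by norm_num)]
    nlinarith
  rwa [Real.sqrt_mul (sq_nonneg M), Real.sqrt_sq hM0] at h6

theorem t_DEC (h : S_HARM) : S_DEC := by
  intro g C hg
  obtain ⟨K, hK, hKb⟩ := term_bd h hg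
  choose M1 hM1 using fun i => T4_bdd (T4_pd T4_chi i)
  obtain ⟨M0, hM0, hM0b⟩ := T4_bdd T4_chi
  set M : ℝ := ∑ i, M1 i with hM
  have hMn : 0 ≤ M := Finset.sum_nonneg fun i _ => (hM1 i).1
  have b1 : ∀ i z, |pd i chi z| ≤ M := by
    intro i z
    have := Finset.single_le_sum (f := M1) (fun i _ => (hM1 i).1) (Finset.mem_univ i)
    linarith [(hM1 i).2 z]
  refine ⟨M0 + 9 * K * M + 1, by positivity, fun f hf hd => ⟨TT_smooth hg hf, dv_TT hg hf,
    fun z hz i => lap_TT hg hf hd hz i, fun z hz i => ?_⟩⟩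
  have hX0 := A2_nonneg 4 f
  have s2 : ∀ i j, ContDiff ℝ ∞ (KK g (vp f i j)) := fun i j => hg.smooth _ (T4_vp hf i j)
  have s5 : ∀ i j, ContDiff ℝ ∞ (KK g (ww f i j)) := fun i j => hg.smooth _ (T4_ww hf i j)
  have hXs : 0 ≤ √(A2 0 4 f) := Real.sqrt_nonneg _
  have hz2 : z ∈ ball (0 : V) 2 := ball_subset_ball (by norm_num) hz
  have hw : ∀ j, |pd i (KK g (ww f j j)) z| ≤ K * M * √(A2 0 4 f) ∧
      ∀ k, |pd k (pd i (KK g (ww f j j))) z| ≤ K * M * √(A2 0 4 f) := by
    intro j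
    have h0 : ∀ z ∈ ball (0 : V) 2, ww f j j z = 0 := by
      intro z hz
      show pd j chi z * _ = 0
      rw [pd_chi_zero j hz, zero_mul]
    have := hKb _ (T4_ww hf j j) h0 (M ^ 2 * A2 0 4 f) (by positivity)
      (coef (T4_pd T4_chi j) (b1 j) hf j) i z hz
    rw [Real.sqrt_mul (sq_nonneg M), Real.sqrt_sq hMn, ← mul_assoc] at this
    exact this
  have hv : ∀ j, |pd j (KK g (vp f i j)) z| ≤ K * (2 * M) * √(A2 0 4 f) ∧
      ∀ k, |pd k (pd j (KK g (vp f i j))) z| ≤ K * (2 * M) * √(A2 0 4 f) := by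
    intro j
    have h0 : ∀ z ∈ ball (0 : V) 2, vp f i j z = 0 := by
      intro z hz
      show pd i chi z * f z j - pd j chi z * f z i = 0
      rw [pd_chi_zero i hz, pd_chi_zero j hz]; ring
    have := hKb _ (T4_vp hf i j) h0 ((2 * M) ^ 2 * A2 0 4 f) (by positivity)
      ((coef_sub (T4_pd T4_chi i) (T4_pd T4_chi j) (b1 i) (b1 j) hf i j).trans
        (le_of_eq (by ring))) j z hz
    rw [Real.sqrt_mul (sq_nonneg (2 * M)), Real.sqrt_sq (by positivity), ← mul_assoc] at this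
    exact this
  constructor
  · rw [D_eq hg hf hd hz2 i]
    have h1 := mean_bd hf i hM0b
    have h2 : |∑ j, pd i (KK g (ww f j j)) z| ≤ 3 * (K * M * √(A2 0 4 f)) := by
      refine (Finset.abs_sum_le_sum_abs _ _).trans ?_
      refine (Finset.sum_le_sum fun j _ => (hw j).1).trans (le_of_eq ?_)
      simp
    have h3 : |∑ j, pd j (KK g (vp f i j)) z| ≤ 3 * (K * (2 * M) * √(A2 0 4 f)) := by
      refine (Finset.abs_sum_le_sum_abs _ _).trans ?_
      refine (Finset.sum_le_sum fun j _ => (hv j).1).trans (le_of_eq ?_)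
      simp
    have h4 := abs_add_le ((∫ y, uu f i y) / 16 ^ 3 - (∑ j, pd i (KK g (ww f j j)) z))
      (∑ j, pd j (KK g (vp f i j)) z)
    have h5 := abs_sub ((∫ y, uu f i y) / 16 ^ 3) (∑ j, pd i (KK g (ww f j j)) z)
    nlinarith
  · intro k
    have e : (fun y => f y i - TT g f y i) =ᶠ[𝓝 z] fun x => ((∫ y, uu f i y) / 16 ^ 3 -
        (∑ j, pd i (KK g (ww f j j)) x)) + ∑ j, pd j (KK g (vp f i j)) x := by
      filter_upwards [isOpen_ball.mem_nhds hz2] with x hx
      exact D_eq hg hf hd hx i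
    have sA : ContDiff ℝ ∞ (fun x => ∑ j, pd i (KK g (ww f j j)) x) :=
      ContDiff.sum fun j _ => pd_smooth (s5 j j) i
    have sB : ContDiff ℝ ∞ (fun x => ∑ j, pd j (KK g (vp f i j)) x) :=
      ContDiff.sum fun j _ => pd_smooth (s2 i j) j
    have e2 : pd k (fun y => f y i - TT g f y i) z =
        -(∑ j, pd k (pd i (KK g (ww f j j))) z) + ∑ j, pd k (pd j (KK g (vp f i j))) z := by
      rw [pd_congr e]
      have e3 : (fun x => ((∫ y, uu f i y) / 16 ^ 3 - (∑ j, pd i (KK g (ww f j j)) x)) +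
          ∑ j, pd j (KK g (vp f i j)) x) = fun x => ((∫ y, uu f i y) / 16 ^ 3 -
          (∑ j, pd i (KK g (ww f j j)) x)) - (-∑ j, pd j (KK g (vp f i j)) x) := by
        funext x
        ring
      rw [e3, pd_sub (contDiff_const.sub sA) sB.neg, pd_sub contDiff_const sA]
      beta_reduce
      rw [pd_const, pd_neg', pd_sum (fun j => pd_smooth (s5 j j) i),
        pd_sum (fun j => pd_smooth (s2 i j) j)]
      ring
    rw [e2]
    have h2 : |∑ j, pd k (pd i (KK g (ww f j j))) z| ≤ 3 * (K * M * √(A2 0 4 f)) := by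
      refine (Finset.abs_sum_le_sum_abs _ _).trans ?_
      refine (Finset.sum_le_sum fun j _ => (hw j).2 k).trans (le_of_eq ?_)
      simp
    have h3 : |∑ j, pd k (pd j (KK g (vp f i j))) z| ≤ 3 * (K * (2 * M) * √(A2 0 4 f)) := by
      refine (Finset.abs_sum_le_sum_abs _ _).trans ?_
      refine (Finset.sum_le_sum fun j _ => (hv j).2 k).trans (le_of_eq ?_)
      simp
    have h4 := abs_add_le (-(∑ j, pd k (pd i (KK g (ww f j j))) z))
      (∑ j, pd k (pd j (KK g (vp f i j))) z)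
    rw [abs_neg] at h4
    have h6 : 0 ≤ M0 * √(A2 0 4 f) := mul_nonneg hM0 hXs
    nlinarith

end Pool.Agent.W505.ME.DEC
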