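import Pool.Agent.W221.NS.Stm2
import Pool.Agent.W12.MD.RIESZ0

/-!
ME-GREEN: Green function of the torus as an `L¹` kernel (helper505).
-/

open MeasureTheory Set Metric Filter Topology
open scoped ContDiff ENNReal Pointwise

namespace Pool.Agent.W505.ME.G

open H459R3.NS W221.NS Pool.Agent.W12.MD Pool.Agent.W12.MD.R0

attribute [local instance] instMeasureSpaceUnitAddCircle

local instance : Measure.IsAddHaarMeasure (volume : Measure UnitAddCircle) :=
  inferInstanceAs (Measure.IsAddHaarMeasure AddCircle.haarAddCircle)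

local instance : IsProbabilityMeasure (volume : Measure UnitAddCircle) :=
  inferInstanceAs (IsProbabilityMeasure AddCircle.haarAddCircle)

local instance : (volume : Measure (UnitAddTorus (Fin 3))).IsNegInvariant :=
  Measure.pi.isNegInvariant _

/-! ### the coefficients -/

/-- the coefficients of the Green function -/
noncomputable def mc (k : K3) : ℝ := (4 * Real.pi ^ 2 * kk k)⁻¹

theorem kk_nonneg (k : K3) : 0 ≤ kk k := Finset.sum_nonneg fun _ _ => sq_nonneg _

theorem kk_zero : kk 0 = 0 := by simp [kk]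

theorem mc_zero : mc 0 = 0 := by simp [mc, kk_zero]

theorem kk_one {k : K3} (hk : k ≠ 0) : 1 ≤ kk k := by
  have h1 := kk_pos hk
  have h2 : kk k = ((∑ l, (k l) ^ 2 : ℤ) : ℝ) := by
    unfold kk
    push_cast
    rfl
  rw [h2] at h1 ⊢
  have h3 : (0 : ℤ) < ∑ l, (k l) ^ 2 := by exact_mod_cast h1
  exact_mod_cast h3

theorem pi_sq : 1 ≤ 4 * Real.pi ^ 2 := by
  have := Real.pi_gt_three
  nlinarith

theorem mc_nonneg (k : K3) : 0 ≤ mc k := by
  unfold mc
  have := kk_nonneg k
  positivity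

theorem mc_le (k : K3) : mc k ≤ 1 := by
  rcases eq_or_ne k 0 with rfl | hk
  · rw [mc_zero]; exact zero_le_one
  · unfold mc
    apply inv_le_one_of_one_le₀
    have h1 := kk_one hk
    have h2 := pi_sq
    nlinarith

theorem sm_w : Summable fun n : ℤ => (1 + (n : ℝ) ^ 2) ^ (-(2 / 3) : ℝ) := by
  have h : Summable fun n : ℤ => |(n : ℝ)| ^ (-(4 / 3) : ℝ) :=
    Real.summable_abs_int_rpow (by norm_num)
  have h2 := h.add (summable_of_hasFiniteSupport (f := fun n : ℤ => if n = 0 then (1 : ℝ) else 0)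
    ((Set.finite_singleton (0 : ℤ)).subset fun n hn => by
      by_contra h
      exact hn (if_neg h)))
  refine Summable.of_nonneg_of_le (fun n => by positivity) (fun n => ?_) h2
  by_cases hn : n = 0
  · subst hn
    rw [if_pos rfl]
    have : (0 : ℝ) ≤ |((0 : ℤ) : ℝ)| ^ (-(4 / 3) : ℝ) := by positivity
    have h3 : (1 + (((0 : ℤ) : ℝ)) ^ 2) ^ (-(2 / 3) : ℝ) = 1 := by simp
    linarith
  · rw [if_neg hn, add_zero]
    have hn' : (0 : ℝ) < |(n : ℝ)| := by
      rw [abs_pos]
      exact_mod_cast hn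
    have h3 : |(n : ℝ)| ^ (-(4 / 3) : ℝ) = ((n : ℝ) ^ 2) ^ (-(2 / 3) : ℝ) := by
      rw [← sq_abs, ← Real.rpow_natCast, ← Real.rpow_mul hn'.le]
      norm_num
    rw [h3]
    apply Real.rpow_le_rpow_of_nonpos
    · rw [← sq_abs]; positivity
    · linarith
    · norm_num

theorem sm_prod : Summable fun k : K3 => (1 + (k 0 : ℝ) ^ 2) ^ (-(2 / 3) : ℝ) *
    ((1 + (k 1 : ℝ) ^ 2) ^ (-(2 / 3) : ℝ) * (1 + (k 2 : ℝ) ^ 2) ^ (-(2 / 3) : ℝ)) := by
  have h1 := sm_w.mul_of_nonneg sm_w (fun n => by positivity) (fun n => by positivity)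
  have h2 := sm_w.mul_of_nonneg h1 (fun n => by positivity) (fun p => by positivity)
  have h3 := (eqv.summable_iff (f := fun p : ℤ × ℤ × ℤ =>
    (1 + (p.1 : ℝ) ^ 2) ^ (-(2 / 3) : ℝ) *
    ((1 + (p.2.1 : ℝ) ^ 2) ^ (-(2 / 3) : ℝ) * (1 + (p.2.2 : ℝ) ^ 2) ^ (-(2 / 3) : ℝ)))).2 h2
  exact h3

theorem sm_mc : Summable fun k : K3 => mc k ^ 2 := by
  refine Summable.of_nonneg_of_le (fun k => by positivity) (fun k => ?_) (sm_prod.mul_left 4)
  rcases eq_or_ne k 0 with rfl | hk
  · rw [mc_zero, zero_pow two_ne_zero]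
    positivity
  · have h1 := kk_one hk
    have h2 := pi_sq
    have hle : ∀ i, 1 + (k i : ℝ) ^ 2 ≤ 1 + kk k := fun i => by
      have := Finset.single_le_sum (f := fun l => (k l : ℝ) ^ 2) (fun _ _ => sq_nonneg _)
        (Finset.mem_univ i)
      unfold kk
      linarith
    have h3 : ∀ i, (1 + kk k) ^ (-(2 / 3) : ℝ) ≤ (1 + (k i : ℝ) ^ 2) ^ (-(2 / 3) : ℝ) := fun i =>
      Real.rpow_le_rpow_of_nonpos (by positivity) (hle i) (by norm_num)
    have hp : (0 : ℝ) < 1 + kk k := by linarith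
    have h4 : (1 + kk k) ^ (-(2 / 3) : ℝ) * ((1 + kk k) ^ (-(2 / 3) : ℝ) *
        (1 + kk k) ^ (-(2 / 3) : ℝ)) = ((1 + kk k) ^ 2)⁻¹ := by
      rw [← Real.rpow_add hp, ← Real.rpow_add hp, ← Real.rpow_natCast, ← Real.rpow_neg hp.le]
      norm_num
    have h5 : ((1 + kk k) ^ 2)⁻¹ ≤ (1 + (k 0 : ℝ) ^ 2) ^ (-(2 / 3) : ℝ) *
        ((1 + (k 1 : ℝ) ^ 2) ^ (-(2 / 3) : ℝ) * (1 + (k 2 : ℝ) ^ 2) ^ (-(2 / 3) : ℝ)) := by
      rw [← h4]
      have h6 : (0 : ℝ) ≤ (1 + kk k) ^ (-(2 / 3) : ℝ) := by positivity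
      exact mul_le_mul (h3 0) (mul_le_mul (h3 1) (h3 2) h6 (h6.trans (h3 1))) (by positivity)
        (h6.trans (h3 0))
    refine le_trans ?_ (mul_le_mul_of_nonneg_left h5 (by norm_num : (0 : ℝ) ≤ 4))
    unfold mc
    rw [← inv_pow]
    have h7 : (4 * Real.pi ^ 2 * kk k)⁻¹ ≤ 2 * (1 + kk k)⁻¹ := by
      rw [← div_eq_mul_inv, inv_eq_one_div, div_le_div_iff₀ (by positivity) hp]
      nlinarith
    have h8 : (0 : ℝ) ≤ (4 * Real.pi ^ 2 * kk k)⁻¹ := by positivity
    calc (4 * Real.pi ^ 2 * kk k)⁻¹ ^ 2 ≤ (2 * (1 + kk k)⁻¹) ^ 2 := pow_le_pow_left₀ h8 h7 2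
      _ = 4 * (1 + kk k)⁻¹ ^ 2 := by ring

/-! ### the function on the torus -/

theorem exists_G : ∃ G : UnitAddTorus (Fin 3) → ℂ, StronglyMeasurable G ∧ Integrable G ∧
    ∀ k, UnitAddTorus.mFourierCoeff G k = (mc k : ℂ) := by
  have hm : Memℓp (fun k : K3 => (mc k : ℂ)) 2 := by
    rw [memℓp_gen_iff (by norm_num)]
    have := sm_mc
    simpa [Real.norm_eq_abs, abs_of_nonneg (mc_nonneg _)] using this
  obtain ⟨G, hG⟩ : ∃ G : Lp ℂ 2 (volume : Measure (UnitAddTorus (Fin 3))),
      G = UnitAddTorus.mFourierBasis.repr.symm ⟨_, hm⟩ := ⟨_, rfl⟩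
  refine ⟨G, Lp.stronglyMeasurable G, (Lp.memLp G).integrable (by norm_num), fun k => ?_⟩
  rw [← UnitAddTorus.mFourierBasis_repr, hG, LinearIsometryEquiv.apply_symm_apply]

theorem cov_meas : Measurable cov :=
  measurable_pi_lambda _ fun i => AddCircle.measurable_mk'.comp (measurable_pi_apply i)

theorem cov_sub (x y : V) : cov (x - y) = cov x - cov y := by
  funext i
  simp [cov]

theorem ee_sub (k : K3) (x y : V) : ee k (x - y) = ee k x * ee (-k) y := by
  have h1 : ee k (x - y) * ee k y = ee k x := by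
    rw [← ee_add, sub_add_cancel]
  have h2 : ee (-k) y * ee k y = 1 := by
    rw [← ee_add_left, neg_add_cancel, ee_zero]
  have h3 : ee k y ≠ 0 := by
    intro h
    rw [h, mul_zero] at h2
    exact zero_ne_one h2
  apply mul_right_cancel₀ h3
  rw [h1, mul_assoc, h2, mul_one]

variable {G : UnitAddTorus (Fin 3) → ℂ}

theorem int_on_cell (hGm : StronglyMeasurable G) (hG : Integrable G) (a : V) :
    IntegrableOn (fun x => G (cov x)) {x : V | ∀ i, x i ∈ Ioc (a i) (a i + 1)} := by
  refine ⟨(hGm.comp_measurable cov_meas).aestronglyMeasurable, ?_⟩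
  rw [hasFiniteIntegral_iff_enorm]
  have h := UnitAddTorus.lintegral_preimage (fun t => ‖G t‖ₑ) a
  have h2 := hG.2
  rw [hasFiniteIntegral_iff_enorm, h] at h2
  exact h2

theorem int_ball (hGm : StronglyMeasurable G) (hG : Integrable G) (a : V) :
    IntegrableOn (fun x => G (cov x)) (ball a (1 / 2)) := by
  refine (int_on_cell hGm hG (fun i => a i - 1 / 2)).mono_set ?_
  intro x hx i
  rw [mem_ball, dist_eq_norm] at hx
  have h2 : |x i - a i| < 1 / 2 := (norm_le_pi_norm (x - a) i).trans_lt hx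
  rw [abs_lt] at h2
  constructor
  · linarith [h2.1]
  · linarith [h2.2]

/-- the convolution with the lifted function -/
theorem key_conv (hGm : StronglyMeasurable G) (hG : Integrable G)
    (hc : ∀ k, UnitAddTorus.mFourierCoeff G k = (mc k : ℂ)) {F : V → ℝ} (hF : ContDiff ℝ ∞ F)
    (h0 : ∀ z ∉ ball (0 : V) (1 / 4), F z = 0) (x : V) :
    ∫ y, G (cov (x - y)) * (F y : ℂ) = S (fun k => (mc k : ℂ) * fr (prd F) k) x := by
  have hSP : SP (prd F) := prd_sp hF h0
  set a : K3 → ℂ := fr (prd F) with ha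
  have har : Rap a := rap_fr hSP
  -- integrability of the reflected function on the cell
  have hms : Measurable (fun t : UnitAddTorus (Fin 3) => cov x - t) :=
    measurable_id'.const_sub (cov x)
  have hGr : StronglyMeasurable (fun t => G (cov x - t)) := hGm.comp_measurable hms
  have hGri : Integrable (fun t => G (cov x - t)) := hG.comp_sub_left (cov x)
  have hcell : IntegrableOn (fun y => G (cov (x - y))) cel := by
    have := int_on_cell hGr hGri (fun _ => -1 / 2)
    refine this.congr_fun (fun y _ => ?_) cel_meas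
    beta_reduce
    rw [cov_sub]
  have e1 : ∫ y, G (cov (x - y)) * (F y : ℂ) = ∫ y in cel, G (cov (x - y)) * (F y : ℂ) := by
    symm
    apply setIntegral_eq_integral_of_forall_compl_eq_zero
    intro y hy
    rw [h0 y (fun h => hy (ball_cel (ball_subset_ball (by norm_num) h)))]
    simp
  have e2 : ∫ y in cel, G (cov (x - y)) * (F y : ℂ) =
      ∫ y in cel, ∑' k, G (cov (x - y)) * (a k * ee k y) := by
    refine setIntegral_congr_fun cel_meas fun y hy => ?_
    rw [tsum_mul_left, ← prd_eq h0 (cel_abs hy), ← S_fr hSP]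
    rfl
  have hFi : ∀ k, Integrable (fun y => G (cov (x - y)) * (a k * ee k y)) (volume.restrict cel) := by
    intro k
    refine Integrable.mul_bdd (c := ‖a k‖) hcell ?_ ?_
    · exact (continuous_const.mul (ee_continuous k)).aestronglyMeasurable
    · exact Filter.Eventually.of_forall fun y => (norm_term a k y).le
  have hnorm : ∀ k, ∫ y in cel, ‖G (cov (x - y)) * (a k * ee k y)‖ =
      ‖a k‖ * ∫ y in cel, ‖G (cov (x - y))‖ := by
    intro k
    rw [← integral_const_mul]
    congr 1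
    funext y
    rw [norm_mul, norm_term, mul_comm]
  have hsum := hasSum_integral_of_summable_integral_norm hFi (by
    simp_rw [hnorm]
    exact har.summable.norm.mul_right _)
  have hterm : ∀ k, ∫ y in cel, G (cov (x - y)) * (a k * ee k y) =
      (mc k : ℂ) * a k * ee k x := by
    intro k
    have t1 : ∫ y in cel, G (cov (x - y)) * (a k * ee k y) =
        ∫ y in cel, (fun t => G (cov x - t) * (a k * UnitAddTorus.mFourier k t)) (cov y) := by
      congr 1
      funext y
      beta_reduce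
      rw [cov_sub, mFourier_cov]
    have t2 := UnitAddTorus.integral_preimage
      (fun t => G (cov x - t) * (a k * UnitAddTorus.mFourier k t)) (fun _ => -1 / 2)
    have t3 : ∫ t, G (cov x - t) * (a k * UnitAddTorus.mFourier k t) =
        ∫ t, G t * (a k * UnitAddTorus.mFourier k (cov x - t)) := by
      have := integral_sub_left_eq_self
        (fun t => G t * (a k * UnitAddTorus.mFourier k (cov x - t))) volume (cov x)
      rw [← this]
      congr 1
      funext t
      rw [sub_sub_cancel]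
    have t4 : ∀ t, G t * (a k * UnitAddTorus.mFourier k (cov x - t)) =
        (a k * ee k x) * (UnitAddTorus.mFourier (-k) t • G t) := by
      intro t
      obtain ⟨y, rfl⟩ := cov_surj t
      rw [← cov_sub, mFourier_cov, mFourier_cov, ee_sub, smul_eq_mul]
      ring
    rw [t1]
    calc _ = ∫ t, G (cov x - t) * (a k * UnitAddTorus.mFourier k t) := t2.symm
      _ = ∫ t, (a k * ee k x) * (UnitAddTorus.mFourier (-k) t • G t) := by
        rw [t3]
        congr 1
        funext t
        exact t4 t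
      _ = (a k * ee k x) * UnitAddTorus.mFourierCoeff G k := by
        rw [integral_const_mul]
        rfl
      _ = _ := by rw [hc]; ring
  rw [e1, e2, ← hsum.tsum_eq]
  unfold S
  exact tsum_congr hterm

/-- integrability of the convolution -/
theorem conv_int (hGm : StronglyMeasurable G) (hG : Integrable G) {F : V → ℝ}
    (hF : Continuous F) (h0 : ∀ z ∉ ball (0 : V) (1 / 4), F z = 0) (x : V) :
    Integrable (fun y => G (cov (x - y)) * (F y : ℂ)) := by
  have hms : Measurable (fun t : UnitAddTorus (Fin 3) => cov x - t) :=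
    measurable_id'.const_sub (cov x)
  have hGr : StronglyMeasurable (fun t => G (cov x - t)) := hGm.comp_measurable hms
  have hGri : Integrable (fun t => G (cov x - t)) := hG.comp_sub_left (cov x)
  have hcell : IntegrableOn (fun y => G (cov (x - y))) cel := by
    have := int_on_cell hGr hGri (fun _ => -1 / 2)
    refine this.congr_fun (fun y _ => ?_) cel_meas
    beta_reduce
    rw [cov_sub]
  have hsub : Function.support (fun y => G (cov (x - y)) * (F y : ℂ)) ⊆ cel := by
    intro y hy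
    by_contra hn
    apply hy
    beta_reduce
    rw [h0 y (fun h => hn (ball_cel (ball_subset_ball (by norm_num) h)))]
    simp
  rw [← integrableOn_iff_integrable_of_support_subset hsub]
  obtain ⟨c, hc⟩ := (isCompact_closedBall (0 : V) 1).exists_bound_of_continuousOn hF.continuousOn
  refine Integrable.mul_bdd (c := c) hcell
    (Complex.continuous_ofReal.comp hF).aestronglyMeasurable ?_
  refine Filter.Eventually.of_forall fun y => ?_
  rw [Complex.norm_real]
  by_cases hy : y ∈ closedBall (0 : V) 1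
  · exact hc y hy
  · rw [h0 y (fun h => hy (ball_subset_closedBall (ball_subset_ball (by norm_num) h)))]
    rw [norm_zero]
    exact (norm_nonneg _).trans (hc 0 (by simp))

/-! ### scaling -/

/-- the Green function of period `16` -/
noncomputable def gg (G : UnitAddTorus (Fin 3) → ℂ) (x : V) : ℝ :=
  (G (cov ((1 / 16 : ℝ) • x))).re / 16

/-- scaling to period one -/
noncomputable def sc (f : V → ℝ) (y : V) : ℝ := f ((16 : ℝ) • y)

theorem sc_smooth {f : V → ℝ} (hf : ContDiff ℝ ∞ f) : ContDiff ℝ ∞ (sc f) :=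
  hf.comp (contDiff_const_smul _)

theorem sc_zero {f : V → ℝ} (hf : T4 f) : ∀ z ∉ ball (0 : V) (1 / 4), sc f z = 0 := by
  intro z hz
  apply hf.2
  intro h
  apply hz
  rw [mem_ball_zero_iff] at h ⊢
  rw [norm_smul, Real.norm_of_nonneg (by norm_num)] at h
  linarith

/-- the scaled series -/
noncomputable def R (b : K3 → ℂ) (x : V) : ℝ := (S b ((1 / 16 : ℝ) • x)).re

/-- the coefficients of the potential of `f` -/
noncomputable def pt (f : V → ℝ) (k : K3) : ℂ := (mc k : ℂ) * fr (prd (sc f)) k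

theorem KK_eq (hGm : StronglyMeasurable G) (hG : Integrable G)
    (hc : ∀ k, UnitAddTorus.mFourierCoeff G k = (mc k : ℂ)) {f : V → ℝ} (hf : T4 f) (x : V) :
    KK (gg G) f x = 256 * R (pt f) x := by
  have h1 := Measure.integral_comp_smul (volume : Measure V) (fun y => gg G (x - y) * f y) 16
  have h2 : ∀ y : V, gg G (x - (16 : ℝ) • y) * f ((16 : ℝ) • y) =
      (1 / 16) * (G (cov ((1 / 16 : ℝ) • x - y)) * ((sc f y : ℝ) : ℂ)).re := by
    intro y
    unfold gg
    have e1 : (1 / 16 : ℝ) • (x - (16 : ℝ) • y) = (1 / 16 : ℝ) • x - y := by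
      rw [smul_sub, smul_smul]
      norm_num
    rw [e1, Complex.re_mul_ofReal]
    unfold sc
    ring
  simp_rw [h2] at h1
  rw [integral_const_mul] at h1
  have h3 : ∫ y, (G (cov ((1 / 16 : ℝ) • x - y)) * ((sc f y : ℝ) : ℂ)).re =
      (∫ y, G (cov ((1 / 16 : ℝ) • x - y)) * ((sc f y : ℝ) : ℂ)).re :=
    integral_re (conv_int hGm hG (sc_smooth hf.1).continuous (sc_zero hf) _)
  rw [h3, key_conv hGm hG hc (sc_smooth hf.1) (sc_zero hf)] at h1
  have h4 : Module.finrank ℝ V = 3 := by simp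
  rw [h4, smul_eq_mul, abs_of_pos (by norm_num)] at h1
  unfold KK R pt
  linarith

theorem pd_R {b : K3 → ℂ} (hb : Rap b) (i : Fin 3) (x : V) :
    pd i (R b) x = (1 / 16) * R (D i b) x := by
  have h1 : HasFDerivAt (fun x : V => (1 / 16 : ℝ) • x)
      ((1 / 16 : ℝ) • ContinuousLinearMap.id ℝ V) x :=
    ((1 / 16 : ℝ) • ContinuousLinearMap.id ℝ V).hasFDerivAt
  have h2 := ((S_smooth' hb).differentiable (by simp) ((1 / 16 : ℝ) • x)).hasFDerivAt
  have h3 : HasFDerivAt (R b) (Complex.reCLM.comp ((fderiv ℝ (S b) ((1 / 16 : ℝ) • x)).comp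
      ((1 / 16 : ℝ) • ContinuousLinearMap.id ℝ V))) x :=
    Complex.reCLM.hasFDerivAt.comp x (h2.comp x h1)
  have h4 := congrFun (pd_S hb i) ((1 / 16 : ℝ) • x)
  unfold pd at h4 ⊢
  rw [h3.fderiv]
  simp only [ContinuousLinearMap.comp_apply, _root_.smul_apply,
    ContinuousLinearMap.id_apply, map_smul]
  rw [h4]
  unfold R
  simp

theorem R_smooth {b : K3 → ℂ} (hb : Rap b) : ContDiff ℝ ∞ (R b) :=
  Complex.reCLM.contDiff.comp ((S_smooth' hb).comp (contDiff_const_smul _))

theorem R_bound {a b : K3 → ℂ} (hb : Rap b) (ha : Summable a) (hle : ∀ k, ‖b k‖ ≤ ‖a k‖) :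
    ∫ x in ball (0 : V) 8, R b x ^ 2 ≤ 16 ^ 3 * ∑' k, ‖a k‖ ^ 2 := by
  have h1 := Measure.setIntegral_comp_smul_of_pos (volume : Measure V)
    (fun y => (S b y).re ^ 2) (ball (0 : V) 8) (R := 1 / 16) (by norm_num)
  have h2 : (1 / 16 : ℝ) • ball (0 : V) 8 = ball (0 : V) (1 / 2) := by
    rw [_root_.smul_ball (by norm_num), smul_zero, Real.norm_of_nonneg (by norm_num)]
    norm_num
  have h3 : Module.finrank ℝ V = 3 := by simp
  rw [h2, h3, smul_eq_mul] at h1
  have e1 : ∫ x in ball (0 : V) 8, R b x ^ 2 =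
      ∫ x in ball (0 : V) 8, (S b ((1 / 16 : ℝ) • x)).re ^ 2 := rfl
  rw [e1, h1]
  have e2 : (((1 / 16 : ℝ)) ^ 3)⁻¹ = 16 ^ 3 := by norm_num
  rw [e2]
  apply mul_le_mul_of_nonneg_left _ (by norm_num)
  have hS : Continuous (fun x => ‖S b x‖ ^ 2) := (S_continuous hb.summable).norm.pow 2
  have hR : Continuous (fun x => (S b x).re ^ 2) :=
    (Complex.continuous_re.comp (S_continuous hb.summable)).pow 2
  have g1 : ∫ x in ball (0 : V) (1 / 2), (S b x).re ^ 2
      ≤ ∫ x in ball (0 : V) (1 / 2), ‖S b x‖ ^ 2 := by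
    refine setIntegral_mono (intB hR _ _) (intB hS _ _) fun x => ?_
    beta_reduce
    rw [← sq_abs]
    exact pow_le_pow_left₀ (abs_nonneg _) (Complex.abs_re_le_norm _) 2
  have g2 : ∫ x in ball (0 : V) (1 / 2), ‖S b x‖ ^ 2 ≤ ∫ x in cel, ‖S b x‖ ^ 2 :=
    setIntegral_mono_set (cel_int hS) (Filter.Eventually.of_forall fun _ => by positivity)
      ball_cel.eventuallyLE
  have hp : Per (fun x => ‖S b x‖ ^ 2) := fun i x => by
    beta_reduce
    rw [S_per _ i x]
  rw [← int_cel hp, integral_norm_sq hb.summable, n2_sq] at g2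
  refine g1.trans (g2.trans ?_)
  exact (summable_sq hb.summable).tsum_le_tsum
    (fun k => pow_le_pow_left₀ (norm_nonneg _) (hle k) 2) (summable_sq ha)

/-- Parseval for the data -/
theorem data_sq {f : V → ℝ} (hf : T4 f) :
    16 ^ 3 * ∑' k, ‖fr (prd (sc f)) k‖ ^ 2 = ∫ x, f x ^ 2 := by
  rw [← n2_sq, n2_fr (prd_sp (sc_smooth hf.1) (sc_zero hf)), int_prd_sq (sc_zero hf)]
  have h1 : ∫ x in ball (0 : V) (1 / 4), sc f x ^ 2 = ∫ x, sc f x ^ 2 := by
    apply setIntegral_eq_integral_of_forall_compl_eq_zero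
    intro x hx
    rw [sc_zero hf x hx]
    norm_num
  have h2 := Measure.integral_comp_smul (volume : Measure V) (fun y => f y ^ 2) 16
  have h4 : Module.finrank ℝ V = 3 := by simp
  rw [h4, smul_eq_mul, abs_of_pos (by norm_num)] at h2
  have h3 : ∫ x, sc f x ^ 2 = ((16 : ℝ) ^ 3)⁻¹ * ∫ x, f x ^ 2 := h2
  rw [h1, h3, ← mul_assoc, mul_inv_cancel₀ (by norm_num), one_mul]

/-! ### derivatives of functions of compact support -/

theorem pd_zero_off {f : V → ℝ} (hf : ContDiff ℝ ∞ f) {r : ℝ} (hr : r ≠ 0)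
    (h0 : ∀ z ∉ ball (0 : V) r, f z = 0) (i : Fin 3) : ∀ z ∉ ball (0 : V) r, pd i f z = 0 := by
  intro z hz
  have h1 : ∀ w ∈ (closedBall (0 : V) r)ᶜ, pd i f w = 0 := by
    intro w hw
    have h2 : f =ᶠ[𝓝 w] fun _ => 0 := by
      filter_upwards [isClosed_closedBall.isOpen_compl.mem_nhds hw] with y hy
      exact h0 y fun h => hy (ball_subset_closedBall h)
    unfold pd
    rw [h2.fderiv_eq]
    simp
  have h3 : IsClosed {w | pd i f w = 0} :=
    isClosed_eq (smooth_pd hf i).continuous continuous_const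
  have h4 : closure (closedBall (0 : V) r)ᶜ ⊆ {w | pd i f w = 0} :=
    closure_minimal h1 h3
  rw [closure_compl, interior_closedBall _ hr] at h4
  exact h4 hz

theorem T4.pd {f : V → ℝ} (hf : T4 f) (i : Fin 3) : T4 (pd i f) :=
  ⟨smooth_pd hf.1 i, pd_zero_off hf.1 (by norm_num) hf.2 i⟩

/-- the periodisation commutes with derivatives -/
theorem pd_prd {F : V → ℝ} (hF : ContDiff ℝ ∞ F) (h0 : ∀ z ∉ ball (0 : V) (1 / 4), F z = 0)
    (i : Fin 3) : pd i (prd F) = prd (pd i F) := by
  funext x0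
  have hz := pd_zero_off hF (by norm_num : (1 / 4 : ℝ) ≠ 0) h0 i
  by_cases h : ∀ i, |x0 i - round (x0 i)| ≤ 1 / 4
  · have h1 : prd F =ᶠ[𝓝 x0] fun x => F (x - rnd x0) := by
      filter_upwards [ball_mem_nhds x0 (by norm_num : (0 : ℝ) < 1 / 4)] with x hx
      unfold prd
      congr 2
      funext i
      simp only [rnd]
      congr 1
      refine round_eq_of ?_
      have h2 : |x i - x0 i| < 1 / 4 := by
        have := (norm_le_pi_norm (x - x0) i).trans_lt (by rwa [← dist_eq_norm])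
        exact this
      have h3 := abs_add_le (x i - x0 i) (x0 i - round (x0 i))
      rw [show x i - x0 i + (x0 i - round (x0 i)) = x i - round (x0 i) by ring] at h3
      linarith [h i]
    unfold H459R3.NS.pd
    rw [h1.fderiv_eq, fderiv_comp_sub]
    rfl
  · push Not at h
    obtain ⟨j, hj⟩ := h
    have h1 : prd F =ᶠ[𝓝 x0] fun _ => 0 := by
      filter_upwards [ball_mem_nhds x0 (by linarith : (0 : ℝ) < |x0 j - round (x0 j)| - 1 / 4)]
        with x hx
      unfold prd
      refine h0 _ fun hb => ?_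
      rw [mem_ball_zero_iff] at hb
      have h2 : |(x - rnd x) j| < 1 / 4 := (norm_le_pi_norm (x - rnd x) j).trans_lt hb
      simp only [rnd, Pi.sub_apply] at h2
      have h3 : |x j - x0 j| < |x0 j - round (x0 j)| - 1 / 4 := by
        have := (norm_le_pi_norm (x - x0) j).trans_lt (by rwa [← dist_eq_norm])
        exact this
      have h4 := round_le (x0 j) (round (x j))
      have h5 := abs_add_le (x0 j - x j) (x j - round (x j))
      rw [show x0 j - x j + (x j - round (x j)) = x0 j - round (x j) by ring,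
        abs_sub_comm (x0 j) (x j)] at h5
      linarith
    have e1 : pd i (prd F) x0 = 0 := by
      unfold H459R3.NS.pd
      rw [h1.fderiv_eq]
      simp
    rw [e1]
    unfold prd
    symm
    apply hz
    intro hb
    rw [mem_ball_zero_iff] at hb
    have h2 : |(x0 - rnd x0) j| < 1 / 4 := (norm_le_pi_norm (x0 - rnd x0) j).trans_lt hb
    simp only [rnd, Pi.sub_apply] at h2
    linarith

theorem pd_sc {f : V → ℝ} (hf : ContDiff ℝ ∞ f) (i : Fin 3) (y : V) :
    pd i (sc f) y = 16 * sc (pd i f) y := by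
  have h1 : HasFDerivAt (fun x : V => (16 : ℝ) • x)
      ((16 : ℝ) • ContinuousLinearMap.id ℝ V) y :=
    ((16 : ℝ) • ContinuousLinearMap.id ℝ V).hasFDerivAt
  have h2 := (hf.differentiable (by simp) ((16 : ℝ) • y)).hasFDerivAt
  have h3 : HasFDerivAt (sc f) ((fderiv ℝ f ((16 : ℝ) • y)).comp
      ((16 : ℝ) • ContinuousLinearMap.id ℝ V)) y := h2.comp y h1
  unfold sc H459R3.NS.pd at *
  rw [h3.fderiv]
  simp

/-! ### assembly -/

theorem fr_const_mul (c : ℝ) (h : V → ℝ) (k : K3) :
    fr (fun x => c * h x) k = (c : ℂ) * fr h k := by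
  unfold fr fc
  rw [← integral_const_mul]
  congr 1
  funext x
  push_cast
  ring

theorem prd_sc_pd {f : V → ℝ} (hf : T4 f) (i : Fin 3) :
    prd (sc (pd i f)) = fun x => (1 / 16 : ℝ) * pd i (prd (sc f)) x := by
  rw [pd_prd (sc_smooth hf.1) (sc_zero hf)]
  funext x
  unfold prd
  rw [pd_sc hf.1]
  ring

theorem rap_of_le {a b : K3 → ℂ} (ha : Rap a) (h : ∀ k, ‖b k‖ ≤ ‖a k‖) : Rap b := by
  intro n
  refine Summable.of_nonneg_of_le (fun k => by positivity) (fun k => ?_) (ha n)
  exact mul_le_mul_of_nonneg_left (h k) (by positivity)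

theorem rap_dat {f : V → ℝ} (hf : T4 f) : Rap (fr (prd (sc f))) :=
  rap_fr (prd_sp (sc_smooth hf.1) (sc_zero hf))

theorem norm_pt (f : V → ℝ) (k : K3) : ‖pt f k‖ = mc k * ‖fr (prd (sc f)) k‖ := by
  unfold pt
  rw [norm_mul, Complex.norm_real, Real.norm_of_nonneg (mc_nonneg k)]

theorem pt_le (f : V → ℝ) (k : K3) : ‖pt f k‖ ≤ ‖fr (prd (sc f)) k‖ := by
  rw [norm_pt]
  exact mul_le_of_le_one_left (norm_nonneg _) (mc_le k)

theorem rap_pt {f : V → ℝ} (hf : T4 f) : Rap (pt f) := rap_of_le (rap_dat hf) (pt_le f)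

theorem pt_pd {f : V → ℝ} (hf : T4 f) (i : Fin 3) (k : K3) :
    pt (pd i f) k = (1 / 16) * D i (pt f) k := by
  unfold pt
  rw [prd_sc_pd hf i, fr_const_mul, fr_pd (prd_sp (sc_smooth hf.1) (sc_zero hf))]
  unfold D
  push_cast
  ring

theorem R_const_mul (c : ℝ) (b : K3 → ℂ) (x : V) :
    R (fun k => (c : ℂ) * b k) x = c * R b x := by
  unfold R S
  simp_rw [mul_assoc]
  rw [tsum_mul_left, Complex.re_ofReal_mul]

theorem R_pt_pd {f : V → ℝ} (hf : T4 f) (i : Fin 3) (x : V) :
    R (pt (pd i f)) x = (1 / 16) * R (D i (pt f)) x := by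
  have h : pt (pd i f) = fun k => ((1 / 16 : ℝ) : ℂ) * D i (pt f) k := by
    funext k
    rw [pt_pd hf]
    push_cast
    ring
  rw [h, R_const_mul]

theorem pd_const_mul {h : V → ℝ} (hh : ContDiff ℝ ∞ h) (c : ℝ) (i : Fin 3) (x : V) :
    pd i (fun y => c * h y) x = c * pd i h x := by
  unfold H459R3.NS.pd
  rw [fderiv_const_mul ((hh.differentiable (by simp)) x)]
  rfl

theorem mult1_le (k : K3) (i : Fin 3) : 2 * Real.pi * |(k i : ℝ)| * mc k ≤ 1 := by
  rcases eq_or_ne k 0 with rfl | hk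
  · rw [mc_zero]; simp
  · unfold mc
    have h1 := kk_one hk
    have h3 : (k i : ℝ) ^ 2 ≤ kk k :=
      Finset.single_le_sum (f := fun l => (k l : ℝ) ^ 2) (fun _ _ => sq_nonneg _)
        (Finset.mem_univ i)
    have hp := Real.pi_gt_three
    rw [← div_eq_mul_inv, div_le_one (by positivity)]
    have h4 : |(k i : ℝ)| ≤ kk k := by
      have h5 := sq_abs (k i : ℝ)
      by_contra hcon
      push Not at hcon
      nlinarith
    have h6 : 2 * Real.pi * |(k i : ℝ)| ≤ 2 * Real.pi * kk k :=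
      mul_le_mul_of_nonneg_left h4 (by positivity)
    have h7 : 2 * Real.pi * kk k * 1 ≤ 2 * Real.pi * kk k * (2 * Real.pi) :=
      mul_le_mul_of_nonneg_left (by linarith) (by positivity)
    linarith [h6, h7]

theorem D_pt_le (f : V → ℝ) (i : Fin 3) (k : K3) :
    ‖D i (pt f) k‖ ≤ ‖fr (prd (sc f)) k‖ := by
  have hp := Real.pi_pos
  unfold D
  rw [norm_mul, norm_pt, norm_mul, norm_mul, norm_mul, Complex.norm_I, mul_one, Complex.norm_real,
    Real.norm_eq_abs, abs_of_pos hp, Complex.norm_ofNat, Complex.norm_intCast]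
  have h1 := mult1_le k i
  calc _ = (2 * Real.pi * |(k i : ℝ)| * mc k) * ‖fr (prd (sc f)) k‖ := by ring
    _ ≤ _ := mul_le_of_le_one_left (norm_nonneg _) h1

theorem DD_eq (f : V → ℝ) (i j : Fin 3) (k : K3) :
    D i (D j (pt f)) k = -((k i : ℂ) * (k j : ℂ) / (kk k : ℂ)) * fr (prd (sc f)) k := by
  unfold D pt mc
  have hp : (Real.pi : ℂ) ≠ 0 := by exact_mod_cast Real.pi_ne_zero
  rcases eq_or_ne k 0 with rfl | hk
  · simp
  · have : (kk k : ℂ) ≠ 0 := by exact_mod_cast (kk_pos hk).ne'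
    push_cast
    field_simp
    rw [Complex.I_sq]
    ring

theorem DD_pt_le (f : V → ℝ) (i j : Fin 3) (k : K3) :
    ‖D i (D j (pt f)) k‖ ≤ ‖fr (prd (sc f)) k‖ := by
  rw [DD_eq, norm_mul, norm_neg]
  exact mul_le_of_le_one_left (norm_nonneg _) (mult_le k i j)

theorem fr_zero_eq {f : V → ℝ} (hf : T4 f) :
    fr (prd (sc f)) 0 = (((∫ y, f y) / 16 ^ 3 : ℝ) : ℂ) := by
  have hSP := prd_sp (sc_smooth hf.1) (sc_zero hf)
  have h1 : fr (prd (sc f)) 0 = ((∫ x in cube, prd (sc f) x : ℝ) : ℂ) := by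
    unfold fr fc
    rw [← integral_complex_ofReal]
    congr 1
    funext x
    rw [neg_zero, ee_zero, one_mul]
  rw [h1, int_cel hSP.per]
  congr 1
  have h2 : ∫ x in cel, prd (sc f) x = ∫ x in cel, sc f x :=
    setIntegral_congr_fun cel_meas fun x hx => prd_eq (sc_zero hf) (cel_abs hx)
  have h3 : ∫ x in cel, sc f x = ∫ x, sc f x := by
    apply setIntegral_eq_integral_of_forall_compl_eq_zero
    intro x hx
    exact sc_zero hf x fun h => hx (ball_cel (ball_subset_ball (by norm_num) h))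
  have h4 := Measure.integral_comp_smul (volume : Measure V) f 16
  have h5 : Module.finrank ℝ V = 3 := by simp
  rw [h5, smul_eq_mul, abs_of_pos (by norm_num)] at h4
  have h6 : ∫ x, sc f x = ((16 : ℝ) ^ 3)⁻¹ * ∫ x, f x := h4
  rw [h2, h3, h6]
  ring

theorem R_lap {f : V → ℝ} (hf : T4 f) {x : V} (hx : x ∈ ball (0 : V) 8) :
    -∑ j, R (D j (D j (pt f))) x = f x - (∫ y, f y) / 16 ^ 3 := by
  have hSP := prd_sp (sc_smooth hf.1) (sc_zero hf)
  have hpr := rap_pt hf
  set y : V := (1 / 16 : ℝ) • x with hy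
  have hyb : y ∈ ball (0 : V) (1 / 2) := by
    rw [mem_ball_zero_iff] at hx ⊢
    rw [hy, norm_smul, Real.norm_of_nonneg (by norm_num)]
    linarith
  have e1 : -∑ j, R (D j (D j (pt f))) x = (-∑ j, S (D j (D j (pt f))) y).re := by
    rw [Complex.neg_re, Complex.re_sum]
    rfl
  have e2 : -∑ j, S (D j (D j (pt f))) y = S (fr (prd (sc f))) y - fr (prd (sc f)) 0 := by
    rw [← S_sum _ fun j _ => ((hpr.D j).D j).summable, ← S_neg]
    have e3 : (fun k => -∑ j, D j (D j (pt f)) k) =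
        fun k => fr (prd (sc f)) k - if k = 0 then fr (prd (sc f)) 0 else 0 := by
      funext k
      simp_rw [DD_eq]
      rcases eq_or_ne k 0 with rfl | hk
      · simp
      · rw [if_neg hk, sub_zero]
        have hk0 : (kk k : ℂ) ≠ 0 := by exact_mod_cast (kk_pos hk).ne'
        have hs : ∑ j, (k j : ℂ) * (k j : ℂ) = (kk k : ℂ) := by
          unfold kk
          push_cast
          exact Finset.sum_congr rfl fun j _ => (sq _).symm
        rw [← Finset.sum_mul, Finset.sum_neg_distrib, ← Finset.sum_div, hs, div_self hk0]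
        ring
    rw [e3]
    unfold S
    simp_rw [sub_mul]
    rw [Summable.tsum_sub (summable_term (rap_dat hf).summable y)]
    · congr 1
      rw [tsum_eq_single 0]
      · rw [if_pos rfl, ee_zero, mul_one]
      · intro k hk
        rw [if_neg hk, zero_mul]
    · apply summable_of_ne_finset_zero (s := {0})
      intro k hk
      rw [Finset.mem_singleton] at hk
      rw [if_neg hk, zero_mul]
  rw [e1, e2, S_fr hSP, fr_zero_eq hf, Complex.sub_re, Complex.ofReal_re, Complex.ofReal_re,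
    prd_eq (sc_zero hf) (cel_abs (ball_cel hyb))]
  congr 1
  unfold sc
  rw [hy, smul_smul]
  norm_num

theorem gg_loc (hGm : StronglyMeasurable G) (hG : Integrable G) : LocallyIntegrable (gg G) := by
  intro x
  refine ⟨ball x 8, ball_mem_nhds x (by norm_num), ?_⟩
  have h1 := int_ball hGm hG ((1 / 16 : ℝ) • x)
  rw [← integrable_indicator_iff measurableSet_ball] at h1
  have h2 := h1.comp_smul (R := (1 / 16 : ℝ)) (by norm_num)
  have h3 : (fun y : V => (ball ((1 / 16 : ℝ) • x) (1 / 2)).indicator (fun x => G (cov x))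
      ((1 / 16 : ℝ) • y)) = (ball x 8).indicator (fun y => G (cov ((1 / 16 : ℝ) • y))) := by
    funext y
    have h4 : (1 / 16 : ℝ) • y ∈ ball ((1 / 16 : ℝ) • x) (1 / 2) ↔ y ∈ ball x 8 := by
      rw [mem_ball, mem_ball, dist_smul₀, Real.norm_of_nonneg (by norm_num)]
      constructor <;> intro h <;> linarith
    by_cases hy : y ∈ ball x 8
    · rw [indicator_of_mem hy, indicator_of_mem (h4.2 hy)]
    · rw [indicator_of_notMem hy, indicator_of_notMem (fun h => hy (h4.1 h))]
  rw [h3, integrable_indicator_iff measurableSet_ball] at h2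
  exact (h2.re).div_const 16

theorem t_GREEN : S_GREEN := by
  obtain ⟨G, hGm, hG, hc⟩ := exists_G
  have hK : ∀ f, T4 f → KK (gg G) f = fun x => 256 * R (pt f) x := fun f hf =>
    funext fun x => KK_eq hGm hG hc hf x
  have hK1 : ∀ f, T4 f → ∀ i, pd i (KK (gg G) f) = fun x => 16 * R (D i (pt f)) x := by
    intro f hf i
    funext x
    rw [hK f hf, pd_const_mul (R_smooth (rap_pt hf)), pd_R (rap_pt hf)]
    ring
  have hK2 : ∀ f, T4 f → ∀ i j, pd i (pd j (KK (gg G) f)) = fun x => R (D i (D j (pt f))) x := by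
    intro f hf i j
    funext x
    rw [hK1 f hf, pd_const_mul (R_smooth ((rap_pt hf).D j)), pd_R ((rap_pt hf).D j)]
    ring
  refine ⟨gg G, 65536, by norm_num, ?_⟩
  constructor
  · exact gg_loc hGm hG
  · intro f hf
    rw [hK f hf]
    exact contDiff_const.mul (R_smooth (rap_pt hf))
  · intro f hf i
    rw [hK1 f hf, hK _ (T4.pd hf i)]
    funext x
    rw [R_pt_pd hf]
    ring
  · intro f hf x hx
    rw [← R_lap hf hx]
    unfold lap
    congr 1
    refine Finset.sum_congr rfl fun j _ => ?_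
    rw [hK2 f hf]
  · intro f hf
    rw [hK f hf]
    have h1 := R_bound (rap_pt hf) (rap_dat hf).summable (pt_le f)
    rw [data_sq hf] at h1
    simp_rw [mul_pow]
    rw [integral_const_mul]
    have h2 : (256 : ℝ) ^ 2 = 65536 := by norm_num
    rw [h2]
    exact mul_le_mul_of_nonneg_left h1 (by norm_num)
  · intro f hf i
    rw [hK1 f hf]
    have h1 := R_bound ((rap_pt hf).D i) (rap_dat hf).summable (D_pt_le f i)
    rw [data_sq hf] at h1
    simp_rw [mul_pow]
    rw [integral_const_mul]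
    have h3 : 0 ≤ ∫ x, f x ^ 2 := integral_nonneg fun x => sq_nonneg _
    nlinarith
  · intro f hf i j
    rw [hK2 f hf]
    have h1 := R_bound (((rap_pt hf).D j).D i) (rap_dat hf).summable (DD_pt_le f i j)
    rw [data_sq hf] at h1
    have h3 : 0 ≤ ∫ x, f x ^ 2 := integral_nonneg fun x => sq_nonneg _
    nlinarith

end Pool.Agent.W505.ME.G
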