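import Pool.Agent.W22.ME.TD
import Pool.Agent.W583.MD.EN

/-!
ME-TSM: joint smoothness and time derivative of the decomposition (helper505).
-/

set_option linter.unusedVariables false

open MeasureTheory Set Metric Filter Topology
open scoped ContDiff ENNReal

namespace Pool.Agent.W505.ME.TSM

open H459R3.NS W221.NS Pool.Agent.W22.ME.TD

/-- jointly smooth functions on `(-1, 0) × ℝ³` -/
def JS (F : ℝ → V → ℝ) : Prop :=
  ContDiffOn ℝ ∞ (fun z : ℝ × V => F z.1 z.2) (Ioo (-1) 0 ×ˢ univ)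

theorem opn : IsOpen (Ioo (-1 : ℝ) 0 ×ˢ (univ : Set V)) := isOpen_Ioo.prod isOpen_univ

variable {F : ℝ → V → ℝ}

theorem JS.slice (hF : JS F) {t : ℝ} (ht : t ∈ Ioo (-1 : ℝ) 0) : ContDiff ℝ ∞ (F t) := by
  rw [← contDiffOn_univ]
  unfold JS at hF
  exact hF.comp (contDiff_const.prodMk contDiff_id).contDiffOn (fun x _ => ⟨ht, mem_univ _⟩)

theorem JS.diffAt (hF : JS F) {t : ℝ} (ht : t ∈ Ioo (-1 : ℝ) 0) (x : V) :
    DifferentiableAt ℝ (fun z : ℝ × V => F z.1 z.2) (t, x) := by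
  have hmem : Ioo (-1 : ℝ) 0 ×ˢ (univ : Set V) ∈ 𝓝 (t, x) :=
    prod_mem_nhds (Ioo_mem_nhds ht.1 ht.2) Filter.univ_mem
  exact (ContDiffOn.contDiffAt hF hmem).differentiableAt (by norm_cast)

theorem JS.hd_t (hF : JS F) {t : ℝ} (ht : t ∈ Ioo (-1 : ℝ) 0) (x : V) :
    HasDerivAt (fun s => F s x) (fderiv ℝ (fun z : ℝ × V => F z.1 z.2) (t, x) (1, 0)) t := by
  have h2 : HasDerivAt (fun s : ℝ => ((s, x) : ℝ × V)) (1, 0) t :=
    (hasDerivAt_id t).prodMk (hasDerivAt_const t x)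
  exact (hF.diffAt ht x).hasFDerivAt.comp_hasDerivAt t h2

theorem JS.dt_eq (hF : JS F) {t : ℝ} (ht : t ∈ Ioo (-1 : ℝ) 0) (x : V) :
    deriv (fun s => F s x) t = fderiv ℝ (fun z : ℝ × V => F z.1 z.2) (t, x) (1, 0) :=
  (hF.hd_t ht x).deriv

theorem JS.pd_eq (hF : JS F) {t : ℝ} (ht : t ∈ Ioo (-1 : ℝ) 0) (x : V) (j : Fin 3) :
    pd j (F t) x = fderiv ℝ (fun z : ℝ × V => F z.1 z.2) (t, x) (0, Pi.single j 1) := by
  have h2 : HasFDerivAt (fun y : V => ((t, y) : ℝ × V))
      (ContinuousLinearMap.inr ℝ ℝ V) x := by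
    have := (hasFDerivAt_const t x).prodMk (hasFDerivAt_id (𝕜 := ℝ) x)
    exact this
  have h3 : HasFDerivAt (F t) _ x := (hF.diffAt ht x).hasFDerivAt.comp x h2
  unfold pd
  rw [h3.fderiv]
  rfl

theorem smooth_dir (hF : JS F) (w : ℝ × V) :
    ContDiffOn ℝ ∞ (fun z : ℝ × V => fderiv ℝ (fun z : ℝ × V => F z.1 z.2) z w)
      (Ioo (-1) 0 ×ˢ univ) :=
  (ContDiffOn.fderiv_of_isOpen hF opn (by norm_cast)).clm_apply contDiffOn_const

theorem JS.pd (hF : JS F) (j : Fin 3) : JS (fun t => pd j (F t)) := by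
  refine (smooth_dir hF (0, Pi.single j 1)).congr ?_
  rintro ⟨t, x⟩ ⟨ht, -⟩
  exact hF.pd_eq ht x j

theorem JS.dt (hF : JS F) : JS (fun t x => deriv (fun s => F s x) t) := by
  refine (smooth_dir hF (1, 0)).congr ?_
  rintro ⟨t, x⟩ ⟨ht, -⟩
  exact hF.dt_eq ht x

theorem JS.comm (hF : JS F) {t : ℝ} (ht : t ∈ Ioo (-1 : ℝ) 0) (x : V) (j : Fin 3) :
    deriv (fun s => H459R3.NS.pd j (F s) x) t =
      H459R3.NS.pd j (fun y => deriv (fun s => F s y) t) x := by
  set H : ℝ × V → ℝ := fun z => F z.1 z.2 with hH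
  have hmem : Ioo (-1 : ℝ) 0 ×ˢ (univ : Set V) ∈ 𝓝 (t, x) :=
    prod_mem_nhds (Ioo_mem_nhds ht.1 ht.2) Filter.univ_mem
  have hc : ContDiffAt ℝ ∞ H (t, x) := ContDiffOn.contDiffAt hF hmem
  have hs : IsSymmSndFDerivAt ℝ H (t, x) := by
    have hc2 : ContDiffAt ℝ 2 H (t, x) := hc.of_le (by norm_cast)
    apply hc2.isSymmSndFDerivAt
    simp [minSmoothness_of_isRCLikeNormedField]
  have hd : DifferentiableAt ℝ (fderiv ℝ H) (t, x) :=
    (hc.fderiv_right (m := ∞) (by norm_cast)).differentiableAt (by simp)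
  have e1 : ∀ a b : ℝ × V, fderiv ℝ (fun y => fderiv ℝ H y b) (t, x) a =
      fderiv ℝ (fderiv ℝ H) (t, x) a b := by
    intro a b
    rw [fderiv_clm_apply hd (differentiableAt_const _)]
    simp
  have h1 : deriv (fun s => H459R3.NS.pd j (F s) x) t =
      fderiv ℝ (fun y => fderiv ℝ H y (0, Pi.single j 1)) (t, x) (1, 0) := by
    have h2 := (hF.pd j).dt_eq ht x
    rw [h2]
    have h3 : (fun z : ℝ × V => H459R3.NS.pd j (F z.1) z.2) =ᶠ[𝓝 (t, x)]
        fun y => fderiv ℝ H y (0, Pi.single j 1) := by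
      filter_upwards [hmem] with z hz
      exact hF.pd_eq hz.1 z.2 j
    rw [h3.fderiv_eq]
  have h2 : H459R3.NS.pd j (fun y => deriv (fun s => F s y) t) x =
      fderiv ℝ (fun y => fderiv ℝ H y (1, 0)) (t, x) (0, Pi.single j 1) := by
    have h3 := hF.dt.pd_eq ht x j
    rw [h3]
    have h4 : (fun z : ℝ × V => deriv (fun s => F s z.2) z.1) =ᶠ[𝓝 (t, x)]
        fun y => fderiv ℝ H y (1, 0) := by
      filter_upwards [hmem] with z hz
      exact hF.dt_eq hz.1 z.2
    rw [h4.fderiv_eq]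
  rw [h1, h2, e1, e1]
  exact hs _ _

theorem JS.sub {G : ℝ → V → ℝ} (hF : JS F) (hG : JS G) : JS (fun t x => F t x - G t x) :=
  ContDiffOn.sub hF hG

theorem JS.chi_mul (hF : JS F) : JS (fun t x => chi x * F t x) :=
  ContDiffOn.mul ((T4_chi.1.comp contDiff_snd).contDiffOn) hF

theorem JS.sum {F : Fin 3 → ℝ → V → ℝ} (hF : ∀ j, JS (F j)) : JS (fun t x => ∑ j, F j t x) :=
  ContDiffOn.sum fun j _ => hF j

/-! ### the potential -/

variable {g : V → ℝ}

theorem KK_conv (g a : V → ℝ) (x : V) :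
    KK g a x = (convolution a g (ContinuousLinearMap.mul ℝ ℝ) volume) x := by
  unfold KK convolution
  refine integral_congr_ae (Filter.Eventually.of_forall fun y => ?_)
  show g (x - y) * a y = a y * g (x - y)
  ring

theorem JS.KK (hg : LocallyIntegrable g) (hF : JS F)
    (h0 : ∀ t ∈ Ioo (-1 : ℝ) 0, ∀ z ∉ ball (0 : V) 4, F t z = 0) :
    JS (fun t => KK g (F t)) := by
  have h1 := contDiffOn_convolution_left_with_param (μ := (volume : Measure V)) (n := ⊤)
    (ContinuousLinearMap.mul ℝ ℝ) (g := F) (s := Ioo (-1 : ℝ) 0) (k := closedBall (0 : V) 4)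
    isOpen_Ioo (isCompact_closedBall 0 4)
    (fun p x hp hx => h0 p hp x fun h => hx (ball_subset_closedBall h)) hg hF
  refine ContDiffOn.congr h1 ?_
  rintro ⟨t, x⟩ -
  exact KK_conv g (F t) x

theorem T4_dt {t : ℝ} (ht : t ∈ Ioo (-1 : ℝ) 0)
    (h0 : ∀ t ∈ Ioo (-1 : ℝ) 0, ∀ z ∉ ball (0 : V) 4, F t z = 0) {z : V}
    (hz : z ∉ ball (0 : V) 4) : deriv (fun s => F s z) t = 0 := by
  have h1 : (fun s => F s z) =ᶠ[𝓝 t] fun _ => 0 := by
    filter_upwards [Ioo_mem_nhds ht.1 ht.2] with s hs'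
    exact h0 s hs' z hz
  rw [h1.deriv_eq]
  exact deriv_const t 0

theorem refl_int (hg : LocallyIntegrable g) (x : V) :
    IntegrableOn (fun y => g (x - y)) (closedBall (0 : V) 4) := by
  have h1 : IntegrableOn g (closedBall x 4) :=
    hg.integrableOn_isCompact (isCompact_closedBall x 4)
  rw [← integrable_indicator_iff measurableSet_closedBall] at h1 ⊢
  have h2 := h1.comp_sub_left x
  refine h2.congr (Filter.Eventually.of_forall fun y => ?_)
  beta_reduce
  have h3 : x - y ∈ closedBall x 4 ↔ y ∈ closedBall (0 : V) 4 := by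
    rw [mem_closedBall, mem_closedBall, dist_eq_norm, dist_eq_norm]
    rw [show x - y - x = -y by abel, norm_neg, sub_zero]
  by_cases hy : y ∈ closedBall (0 : V) 4
  · rw [indicator_of_mem hy, indicator_of_mem (h3.2 hy)]
  · rw [indicator_of_notMem hy, indicator_of_notMem (fun h => hy (h3.1 h))]

theorem mul_int (hg : LocallyIntegrable g) {a : V → ℝ} (ha : Continuous a)
    (h0 : ∀ z ∉ ball (0 : V) 4, a z = 0) (x : V) :
    Integrable (fun y => g (x - y) * a y) := by
  have hsub : Function.support (fun y => g (x - y) * a y) ⊆ closedBall (0 : V) 4 := by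
    intro y hy
    by_contra hn
    apply hy
    beta_reduce
    rw [h0 y (fun h => hn (ball_subset_closedBall h)), mul_zero]
  rw [← integrableOn_iff_integrable_of_support_subset hsub]
  obtain ⟨c, hc⟩ := (isCompact_closedBall (0 : V) 4).exists_bound_of_continuousOn ha.continuousOn
  refine Integrable.mul_bdd (c := c) (refl_int hg x) ha.aestronglyMeasurable ?_
  exact (ae_restrict_iff' measurableSet_closedBall).2 (Filter.Eventually.of_forall hc)

theorem KK_dt (hg : LocallyIntegrable g) (hF : JS F)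
    (h0 : ∀ t ∈ Ioo (-1 : ℝ) 0, ∀ z ∉ ball (0 : V) 4, F t z = 0) {t : ℝ}
    (ht : t ∈ Ioo (-1 : ℝ) 0) (x : V) :
    deriv (fun s => W221.NS.KK g (F s) x) t =
      W221.NS.KK g (fun y => deriv (fun s => F s y) t) x := by
  obtain ⟨a, ha1, ha2⟩ := exists_between ht.1
  obtain ⟨b, hb1, hb2⟩ := exists_between ht.2
  have hK : IsCompact (Icc a b ×ˢ closedBall (0 : V) 4) :=
    isCompact_Icc.prod (isCompact_closedBall 0 4)
  have hsub' : ∀ s ∈ Icc a b, s ∈ Ioo (-1 : ℝ) 0 := fun s hs =>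
    ⟨ha1.trans_le hs.1, hs.2.trans_lt hb2⟩
  have hsub : Icc a b ×ˢ closedBall (0 : V) 4 ⊆ Ioo (-1) 0 ×ˢ (univ : Set V) :=
    prod_mono hsub' (subset_univ _)
  obtain ⟨C, hC⟩ := hK.exists_bound_of_continuousOn
    (((smooth_dir hF (1, 0)).continuousOn).mono hsub)
  have hnh : Icc a b ∈ 𝓝 t := Icc_mem_nhds ha2 hb1
  have hri := refl_int hg x
  have hdc : ∀ s ∈ Ioo (-1 : ℝ) 0, Continuous fun y => deriv (fun s => F s y) s :=
    fun s hs => (hF.dt.slice hs).continuous
  have key := (hasDerivAt_integral_of_dominated_loc_of_deriv_le (s := Icc a b)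
    (F := fun s y => g (x - y) * F s y) (F' := fun s y => g (x - y) * deriv (fun s => F s y) s)
    (bound := (closedBall (0 : V) 4).indicator fun y => ‖g (x - y)‖ * C) (μ := volume)
    (x₀ := t) hnh ?_ ?_ ?_ ?_ ?_ ?_).2
  · exact key.deriv
  · filter_upwards [Ioo_mem_nhds ht.1 ht.2] with s hs
    exact (mul_int hg (hF.slice hs).continuous (h0 s hs) x).aestronglyMeasurable
  · exact mul_int hg (hF.slice ht).continuous (h0 t ht) x
  · exact (mul_int hg (hdc t ht) (fun z hz => T4_dt ht h0 hz) x).aestronglyMeasurable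
  · refine Filter.Eventually.of_forall fun y s hs' => ?_
    by_cases hy : y ∈ closedBall (0 : V) 4
    · rw [indicator_of_mem hy, norm_mul, hF.dt_eq (hsub' s hs') y]
      exact mul_le_mul_of_nonneg_left (hC (s, y) ⟨hs', hy⟩) (norm_nonneg _)
    · have hy' : y ∉ ball (0 : V) 4 := fun h => hy (ball_subset_closedBall h)
      rw [indicator_of_notMem hy]
      rw [T4_dt (hsub' s hs') h0 hy', mul_zero, norm_zero]
  · rw [integrable_indicator_iff measurableSet_closedBall]
    exact hri.norm.mul_const C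
  · refine Filter.Eventually.of_forall fun y s hs' => ?_
    have h := hF.hd_t (hsub' s hs') y
    rw [← hF.dt_eq (hsub' s hs') y] at h
    exact h.const_mul _

theorem t_TSM : S_TSM := by
  intro g C hg v hv
  have hvi : ∀ i, JS (fun t x => v t x i) := fun i => contDiffOn_pi.1 hv i
  have hal : ∀ i j, JS (fun t => al (v t) i j) := fun i j =>
    (((hvi j).pd i).sub ((hvi i).pd j)).chi_mul
  have hal0 : ∀ i j, ∀ t ∈ Ioo (-1 : ℝ) 0, ∀ z ∉ ball (0 : V) 4, al (v t) i j z = 0 := by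
    intro i j t _ z hz
    show chi z * _ = 0
    rw [T4_chi.2 z hz, zero_mul]
  have hKK : ∀ i j, JS (fun t => KK g (al (v t) i j)) := fun i j => (hal i j).KK hg.loc (hal0 i j)
  have hT : ∀ i, JS (fun t x => TT g (v t) x i) := fun i => JS.sum fun j => (hKK i j).pd j
  refine ⟨contDiffOn_pi.2 fun i => hT i, fun t ht x i => ?_⟩
  have h1 : deriv (fun s => TT g (v s) x i) t =
      ∑ j, deriv (fun s => pd j (KK g (al (v s) i j)) x) t := by
    have h2 : HasDerivAt (fun s => ∑ j, pd j (KK g (al (v s) i j)) x)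
        (∑ j, deriv (fun s => pd j (KK g (al (v s) i j)) x) t) t := by
      refine HasDerivAt.fun_sum fun j _ => ?_
      have h3 := ((hKK i j).pd j).hd_t ht x
      rw [← ((hKK i j).pd j).dt_eq ht x] at h3
      exact h3
    exact h2.deriv
  rw [h1]
  show _ = ∑ j, pd j (KK g (al (fun y i => deriv (fun s => v s y i) t) i j)) x
  refine Finset.sum_congr rfl fun j _ => ?_
  rw [(hKK i j).comm ht x j]
  congr 1
  have h4 : (fun y => deriv (fun s => al (v s) i j y) t) =
      al (fun y i => deriv (fun s => v s y i) t) i j := by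
    funext y
    have hA := ((hvi j).pd i).hd_t ht y
    rw [← ((hvi j).pd i).dt_eq ht y, (hvi j).comm ht y i] at hA
    have hB := ((hvi i).pd j).hd_t ht y
    rw [← ((hvi i).pd j).dt_eq ht y, (hvi i).comm ht y j] at hB
    exact ((hA.sub hB).const_mul (chi y)).deriv
  funext y
  rw [KK_dt hg.loc (hal i j) (hal0 i j) ht y, h4]

end Pool.Agent.W505.ME.TSM
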